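import Pool.Agent.UMG.StmtsA

set_option autoImplicit false

namespace Pool.Agent.UMG.H47

open Finset Pool.Agent.UMG

theorem E_zero' (w : ℕ → ℝ) : E w 0 = 1 := by rw [E]

theorem E_succ' (w : ℕ → ℝ) (n : ℕ) :
    E w (n + 1) = (1 / ((n : ℝ) + 1)) * ∑ i ∈ range (n + 1), w (i + 1) * E w (n - i) := by
  rw [E, Algebra.smul_def, eq_ratCast]
  push_cast
  rfl

theorem E_nonneg' (w : ℕ → ℝ) (hw : ∀ l, 0 ≤ w l) (n : ℕ) : 0 ≤ E w n := by
  induction n using Nat.strong_induction_on with
  | _ n ih =>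
    rcases n with _ | n
    · rw [E_zero']; exact zero_le_one
    · rw [E_succ']
      refine mul_nonneg (by positivity) (sum_nonneg fun i _ => ?_)
      exact mul_nonneg (hw _) (ih _ (by omega))

theorem low : LowStmt := by
  intro w n hw
  induction n with
  | zero => rw [E_zero']; simp
  | succ n ih =>
    rw [E_succ']
    have h1 : w (0 + 1) * E w (n - 0) ≤ ∑ i ∈ range (n + 1), w (i + 1) * E w (n - i) :=
      single_le_sum (f := fun i => w (i + 1) * E w (n - i))
        (fun i _ => mul_nonneg (hw _) (E_nonneg' w hw _)) (mem_range.mpr (Nat.succ_pos n))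
    have h2 : w 1 * (w 1 ^ n / (n.factorial : ℝ)) ≤ w 1 * E w n :=
      mul_le_mul_of_nonneg_left ih (hw 1)
    have h3 : w 1 ^ (n + 1) / ((n + 1).factorial : ℝ) =
        (1 / ((n : ℝ) + 1)) * (w 1 * (w 1 ^ n / (n.factorial : ℝ))) := by
      have h4 : (n.factorial : ℝ) ≠ 0 := by exact_mod_cast n.factorial_ne_zero
      rw [Nat.factorial_succ]
      push_cast
      field_simp
      ring
    rw [h3]
    refine mul_le_mul_of_nonneg_left (h2.trans ?_) (by positivity)
    simpa using h1

end Pool.Agent.UMG.H47
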