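import Pool.Agent.UMG.StmtsD

set_option autoImplicit false

namespace Pool.Agent.UMG.H47

open Finset Pool.Agent.UMG

theorem Eint_pos {x : ℕ → ℕ} (hx : ∀ j, 0 < x j) (l k : ℕ) : 0 < Eint x l k := by
  induction k using Nat.strong_induction_on with
  | _ k ih =>
    rcases k with _ | k
    · rw [Eint]; exact Nat.one_pos
    · rw [Eint]
      refine sum_pos (fun i hi => ?_) ⟨0, by simp⟩
      have hi' : i ≤ k := by have := mem_range.mp hi; omega
      have h1 : 0 < k.descFactorial i := by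
        refine Nat.pos_of_ne_zero fun h => ?_
        rw [Nat.descFactorial_eq_zero_iff_lt] at h
        omega
      rw [Nat.cast_id]
      exact Nat.mul_pos (Nat.mul_pos h1 (hx _)) (ih _ (by omega))

theorem Aint_pos {x : ℕ → ℕ} (hx : ∀ j, 0 < x j) :
    ∀ (n : ℕ) (d : List ℕ), d.length = n → 0 < Aint x d := by
  intro n
  induction n using Nat.strong_induction_on with
  | _ n ih =>
    intro d hd
    rcases d with _ | ⟨k, t⟩
    · rw [Aint]; exact Nat.one_pos
    · rw [Aint]
      refine sum_pos (fun i hi => ?_) ⟨0, by simp⟩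
      have hi' : i ≤ t.count k := by have := mem_range.mp hi; omega
      have h1 : 0 < (t.count k).descFactorial i := by
        refine Nat.pos_of_ne_zero fun h => ?_
        rw [Nat.descFactorial_eq_zero_iff_lt] at h
        omega
      rw [Nat.cast_id, Nat.cast_id]
      refine Nat.mul_pos (Nat.mul_pos (Nat.mul_pos h1 (Nat.pow_pos k.factorial_pos))
        (Eint_pos hx _ _)) (ih (t.drop i).length ?_ _ rfl)
      rw [List.length_drop]
      rw [List.length_cons] at hd
      omega

theorem Bn_pos (M j i : ℕ) : 0 < Bn M j i := by unfold Bn; omega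

theorem coef_pos (M j b : ℕ) : 0 < coef M j b := by
  unfold coef
  refine Nat.mul_pos (prod_pos fun i _ => Bn_pos _ _ _) (prod_pos fun b' _ => ?_)
  split_ifs
  · exact Nat.one_pos
  · exact Nat.pow_pos (Bn_pos _ _ _)

theorem fX_pos (M K g j : ℕ) : 0 < fX M K g j := by
  unfold fX be
  split_ifs
  · exact Nat.mul_pos (Nat.pow_pos (by omega)) (Bn_pos _ _ _)
  · exact Nat.mul_pos (Nat.pow_pos (by omega)) (by omega)

theorem TT_pos (K : ℕ) (d : List ℕ) : 0 < TT K d := by
  unfold TT
  refine sum_pos (fun g _ => ?_) ⟨0, ?_⟩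
  · refine Nat.mul_pos ?_ (Aint_pos (fX_pos _ _ _) _ d rfl)
    unfold cfg
    exact prod_pos fun j _ => coef_pos _ _ _
  · rw [mem_range]
    exact Nat.pow_pos (by omega)

theorem rat (h1 : AnaStmt) (h2 : TtgStmt) (h3 : AcnStmt) : RatStmt := by
  intro η h0 hη
  obtain ⟨K, A, hK, h⟩ := h1 η h0 hη
  refine ⟨K, A, hK, fun d hd hg => ⟨?_, TT_pos K d⟩⟩
  have e1 := h d hd hg
  have e2 := h2 K d hd
  have e3 := h3 K d hd
  have e4 : (TT K d : ℝ) ≤ ((d.sum : ℝ) + 2) ^ A *
      ((((range (TT K d)).filter (fun u => algo K d u ≠ 0)).card : ℕ) : ℝ) := by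
    rw [e3]
    rw [e2]
    have h4 : (0 : ℝ) ≤ (SCL K d : ℝ) := Nat.cast_nonneg _
    have h5 := mul_le_mul_of_nonneg_left e1 h4
    calc _ ≤ _ := h5
      _ = _ := by ring
  exact_mod_cast e4

end Pool.Agent.UMG.H47
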