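import Pool.Agent.UMG.StmtsB

set_option autoImplicit false

namespace Pool.Agent.UMG.B.H47

open Finset Pool.Agent.UMG Pool.Agent.UMG.B

theorem slf (h1 : SlmStmt) (h2 : SlcStmt) : SlfStmt := by
  intro b hb H _ g ν
  obtain ⟨e, he⟩ := h1 (bsz b) hb H g
  refine ⟨e, fun m => ?_⟩
  funext v w
  have h3 : QQ (Sum.elim (nu1 b) ν) m.1.1 v w =
      QQ (nu1 b) (⇑((finRotate (bsz b)) ^ (bsz b / 2) : Equiv.Perm (Fin (bsz b)))) v w +
        QQ ν (e m).1.1 v w := by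
    rw [he m]
    exact QQ_sum _ _ _ _ v w
  have h4 := h2 b hb (e m).2 v w
  show Qc (selfE (bsz b) b) v w + QQ ν (e m).1.1 v w = QQ (Sum.elim (nu1 b) ν) m.1.1 v w
  rw [h3, h4]

end Pool.Agent.UMG.B.H47
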